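import Mathlib

open Set Filter Topology Complex

namespace Pool.Agent.Results.MP_939d63_gt.Counterexample
noncomputable section

/-- The triple `a, b, c` of points of the unit circle is positively (counterclockwise) ordered. -/
def Pos (a b c : Circle) : Prop :=
  0 < ((b : ℂ) - a).re * ((c : ℂ) - a).im - ((b : ℂ) - a).im * ((c : ℂ) - a).re

/-- A lamination, its unordered pairs `{a, b}` being recorded as both ordered pairs: nonempty,
closed in the space of pairs of distinct points, and no two leaves are linked. -/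
structure IsLamination (L : Set (Circle × Circle)) : Prop where
  nonempty : L.Nonempty
  ne : ∀ p ∈ L, p.1 ≠ p.2
  symm : ∀ p ∈ L, (p.2, p.1) ∈ L
  closed : ∀ p ∈ closure L, p.1 ≠ p.2 → p ∈ L
  unlinked : ∀ p ∈ L, ∀ q ∈ L, ¬ (Pos p.1 p.2 q.1 ∧ Pos p.2 p.1 q.2)

/-- The open disc minus the leaves, in the Klein model (geodesics are chords). -/
def Compl (L : Set (Circle × Circle)) : Set ℂ :=
  Metric.ball 0 1 \ ⋃ p ∈ L, openSegment ℝ (p.1 : ℂ) (p.2 : ℂ)

/-- Every gap is a finite-sided ideal polygon. -/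
def VeryFull (L : Set (Circle × Circle)) : Prop :=
  ∀ z ∈ Compl L, ∃ S : Finset Circle, 3 ≤ S.card ∧
    closure (connectedComponentIn (Compl L) z) = convexHull ℝ ((fun a : Circle => (a : ℂ)) '' S)

def cay (x : ℝ) : Circle :=
  ⟨⟨(x ^ 2 - 1) / (x ^ 2 + 1), -2 * x / (x ^ 2 + 1)⟩, by
    have : (0 : ℝ) < x ^ 2 + 1 := by positivity
    simp only [Submonoid.unitSphere, Submonoid.mem_mk, Subsemigroup.mem_mk,
      mem_sphere_zero_iff_norm]
    rw [← sq_eq_sq₀ (norm_nonneg _) zero_le_one, Complex.sq_norm, Complex.normSq_mk]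
    field_simp; ring⟩

theorem cay_re (x : ℝ) : (cay x : ℂ).re = (x ^ 2 - 1) / (x ^ 2 + 1) := rfl
theorem cay_im (x : ℝ) : (cay x : ℂ).im = -2 * x / (x ^ 2 + 1) := rfl

theorem sq_add (a : Circle) : (a : ℂ).re ^ 2 + (a : ℂ).im ^ 2 = 1 := by
  have := a.normSq_coe
  rw [Complex.normSq_apply] at this; nlinarith

theorem re_lt {a : Circle} (h : a ≠ 1) : (a : ℂ).re < 1 := by
  have h1 := sq_add a
  by_contra h2
  apply h
  have h3 : (a : ℂ).im = 0 := by nlinarith
  have h4 : (a : ℂ).re = 1 := by nlinarith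
  exact Circle.ext (Complex.ext h4 h3)

def e0 : OnePoint ℝ → Circle := fun p => OnePoint.elim p 1 cay

theorem e0_bij : Function.Bijective e0 := by
  have h1 : ∀ x, cay x ≠ 1 := fun x h => by
    have h2 := cay_re x
    have : (0 : ℝ) < x ^ 2 + 1 := by positivity
    rw [h, eq_div_iff this.ne'] at h2
    simp at h2; linarith
  constructor
  · intro p q h
    induction p using OnePoint.rec <;> induction q using OnePoint.rec
    · rfl
    · exact absurd h.symm (h1 _)
    · exact absurd h (h1 _)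
    · rename_i x y
      have h2 : cay x = cay y := h
      have hr := cay_re x
      have hi := cay_im x
      rw [h2, cay_re] at hr
      rw [h2, cay_im] at hi
      have hx : (0 : ℝ) < x ^ 2 + 1 := by positivity
      have hy : (0 : ℝ) < y ^ 2 + 1 := by positivity
      rw [div_eq_div_iff hy.ne' hx.ne'] at hr hi
      have h3 : x ^ 2 = y ^ 2 := by nlinarith
      rw [h3] at hi
      have h4 : x = y := by
        have := mul_right_cancel₀ hy.ne' hi
        linarith
      rw [h4]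
  · intro a
    by_cases h : a = 1
    · exact ⟨OnePoint.infty, h.symm⟩
    · have h2 := re_lt h
      have h3 := sq_add a
      have h4 : 1 - (a : ℂ).re ≠ 0 := by linarith
      have h5 : (-(a : ℂ).im / (1 - (a : ℂ).re)) ^ 2 + 1 = 2 / (1 - (a : ℂ).re) := by
        field_simp; nlinarith
      refine ⟨(-(a : ℂ).im / (1 - (a : ℂ).re) : ℝ), Circle.ext (Complex.ext ?_ ?_)⟩
      · change (cay _ : ℂ).re = _
        rw [cay_re, h5, show (-(a : ℂ).im / (1 - (a : ℂ).re)) ^ 2 - 1 =
          2 / (1 - (a : ℂ).re) - 2 by linarith]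
        field_simp; ring
      · change (cay _ : ℂ).im = _
        rw [cay_im, h5]
        field_simp

theorem e0_cont : Continuous e0 := by
  rw [OnePoint.continuous_iff]
  constructor
  · rw [coclosedCompact_eq_cocompact]
    refine tendsto_subtype_rng.2 ?_
    change Tendsto (fun x : ℝ => (cay x : ℂ)) _ (𝓝 1)
    rw [tendsto_iff_norm_sub_tendsto_zero]
    have h1 : Tendsto (fun x : ℝ => 2 / ‖x‖) (cocompact ℝ) (𝓝 0) :=
      (tendsto_norm_cocompact_atTop (E := ℝ)).const_div_atTop 2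
    refine squeeze_zero' (Eventually.of_forall fun _ => norm_nonneg _) ?_ h1
    filter_upwards [(tendsto_norm_cocompact_atTop (E := ℝ)).eventually_gt_atTop 0] with x hx
    rw [← sq_le_sq₀ (norm_nonneg _) (by positivity), Complex.sq_norm, Complex.normSq_apply,
      div_pow, Real.norm_eq_abs, sq_abs]
    simp only [sub_re, sub_im, cay_re, cay_im, one_re, one_im]
    have hx0 : x ≠ 0 := norm_pos_iff.1 hx
    have : (0 : ℝ) < x ^ 2 + 1 := by positivity
    have e : ((x ^ 2 - 1) / (x ^ 2 + 1) - 1) * ((x ^ 2 - 1) / (x ^ 2 + 1) - 1) +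
        (-2 * x / (x ^ 2 + 1) - 0) * (-2 * x / (x ^ 2 + 1) - 0) = 2 ^ 2 / (x ^ 2 + 1) := by
      field_simp; ring
    rw [e]
    exact div_le_div_of_nonneg_left (by norm_num) (by positivity) (by linarith)
  · refine Continuous.subtype_mk ?_ _
    have e : (fun x : ℝ => (⟨(x ^ 2 - 1) / (x ^ 2 + 1), -2 * x / (x ^ 2 + 1)⟩ : ℂ)) =
        fun x : ℝ => (((x ^ 2 - 1) / (x ^ 2 + 1) : ℝ) : ℂ) + ((-2 * x / (x ^ 2 + 1) : ℝ) : ℂ) * I :=
      funext fun x => Complex.mk_eq_add_mul_I _ _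
    rw [e]
    have : ∀ x : ℝ, x ^ 2 + 1 ≠ 0 := fun x => by positivity
    fun_prop (disch := assumption)

def e : OnePoint ℝ ≃ₜ Circle :=
  Continuous.homeoOfEquivCompactToT2 (f := Equiv.ofBijective e0 e0_bij) e0_cont

def act (f : ℝ ≃o ℝ) : Circle ≃ₜ Circle :=
  (e.symm.trans f.toHomeomorph.onePointCongr).trans e

theorem act_one (f : ℝ ≃o ℝ) : act f 1 = 1 := by
  have : e.symm 1 = OnePoint.infty := e.symm_apply_eq.2 rfl
  simp only [act, Homeomorph.trans_apply, this]; rfl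

theorem act_cay (f : ℝ ≃o ℝ) (x : ℝ) : act f (cay x) = cay (f x) := by
  have : e.symm (cay x) = (x : OnePoint ℝ) := e.symm_apply_eq.2 rfl
  simp only [act, Homeomorph.trans_apply, this]; rfl

theorem cases (a : Circle) : a = 1 ∨ ∃ x, a = cay x := by
  obtain ⟨p, rfl⟩ := e0_bij.2 a
  induction p using OnePoint.rec
  · exact Or.inl rfl
  · exact Or.inr ⟨_, rfl⟩

theorem cay_inj {x y : ℝ} (h : cay x = cay y) : x = y :=
  OnePoint.coe_injective (e0_bij.1 (a₁ := (x : OnePoint ℝ)) (a₂ := (y : OnePoint ℝ)) h)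

def rho : (ℝ ≃o ℝ) →* (Circle ≃ₜ Circle) := MonoidHom.mk' act fun f g => by
  ext a : 1
  rcases cases a with rfl | ⟨x, rfl⟩
  · simp [act_one]
  · simp [act_cay]

theorem pos_rot (a b c : Circle) : Pos a b c ↔ Pos b c a := by
  unfold Pos; simp only [sub_re, sub_im]; constructor <;> intro h <;> linarith

theorem pos_one (x y : ℝ) : Pos 1 (cay x) (cay y) ↔ x < y := by
  have hx : (0 : ℝ) < x ^ 2 + 1 := by positivity
  have hy : (0 : ℝ) < y ^ 2 + 1 := by positivity
  unfold Pos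
  simp only [sub_re, sub_im, cay_re, cay_im, Circle.coe_one, one_re, one_im]
  have e : ((x ^ 2 - 1) / (x ^ 2 + 1) - 1) * (-2 * y / (y ^ 2 + 1) - 0) -
      (-2 * x / (x ^ 2 + 1) - 0) * ((y ^ 2 - 1) / (y ^ 2 + 1) - 1) =
      (y - x) * (4 / ((x ^ 2 + 1) * (y ^ 2 + 1))) := by
    field_simp; ring
  rw [e, mul_pos_iff_of_pos_right (by positivity), sub_pos]

theorem pos_cay (x y z : ℝ) :
    Pos (cay x) (cay y) (cay z) ↔ 0 < (y - x) * (z - y) * (z - x) := by
  have hx : (0 : ℝ) < x ^ 2 + 1 := by positivity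
  have hy : (0 : ℝ) < y ^ 2 + 1 := by positivity
  have hz : (0 : ℝ) < z ^ 2 + 1 := by positivity
  unfold Pos
  simp only [sub_re, sub_im, cay_re, cay_im]
  have e : ((y ^ 2 - 1) / (y ^ 2 + 1) - (x ^ 2 - 1) / (x ^ 2 + 1)) *
      (-2 * z / (z ^ 2 + 1) - -2 * x / (x ^ 2 + 1)) -
      (-2 * y / (y ^ 2 + 1) - -2 * x / (x ^ 2 + 1)) *
      ((z ^ 2 - 1) / (z ^ 2 + 1) - (x ^ 2 - 1) / (x ^ 2 + 1)) =
      (y - x) * (z - y) * (z - x) * (4 / ((x ^ 2 + 1) * (y ^ 2 + 1) * (z ^ 2 + 1))) := by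
    field_simp; ring
  rw [e, mul_pos_iff_of_pos_right (by positivity)]

theorem not_pos (a b : Circle) : ¬ Pos a a b := by simp [Pos]

theorem sgn (f : ℝ ≃o ℝ) (x y : ℝ) : ∃ c : ℝ, 0 < c ∧ f y - f x = c * (y - x) := by
  rcases lt_trichotomy x y with h | rfl | h
  · exact ⟨(f y - f x) / (y - x), div_pos (sub_pos.2 (f.strictMono h)) (sub_pos.2 h), by
      field_simp [(sub_pos.2 h).ne']⟩
  · exact ⟨1, one_pos, by simp⟩
  · exact ⟨(f y - f x) / (y - x), div_pos_of_neg_of_neg (sub_neg.2 (f.strictMono h))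
      (sub_neg.2 h), by field_simp [(sub_neg.2 h).ne]⟩

theorem act_pos (f : ℝ ≃o ℝ) (a b c : Circle) (h : Pos a b c) :
    Pos (act f a) (act f b) (act f c) := by
  rcases cases a with rfl | ⟨x, rfl⟩ <;> rcases cases b with rfl | ⟨y, rfl⟩ <;>
    rcases cases c with rfl | ⟨z, rfl⟩ <;> simp only [act_one, act_cay]
  · exact h
  · exact absurd h (not_pos _ _)
  · exact absurd ((pos_rot _ _ _).2 h) (not_pos _ _)
  · rw [pos_one] at h ⊢; exact f.strictMono h
  · exact absurd ((pos_rot _ _ _).1 h) (not_pos _ _)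
  · rw [pos_rot, pos_one] at h ⊢; exact f.strictMono h
  · rw [← pos_rot, pos_one] at h ⊢; exact f.strictMono h
  · rw [pos_cay] at h ⊢
    obtain ⟨c1, h1, e1⟩ := sgn f x y
    obtain ⟨c2, h2, e2⟩ := sgn f y z
    obtain ⟨c3, h3, e3⟩ := sgn f x z
    rw [e1, e2, e3]
    have := mul_pos (mul_pos (mul_pos h1 h2) h3) h
    linarith

def L : Set (Circle × Circle) := {p | p.1 ≠ p.2 ∧ (p.1 = 1 ∨ p.2 = 1)}

theorem L_lam : IsLamination L where
  nonempty := ⟨(1, -1), by
    refine ⟨fun h => ?_, Or.inl rfl⟩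
    have := congrArg (fun a : Circle => (a : ℂ).re) h
    norm_num at this⟩
  ne := fun _ h => h.1
  symm := fun _ h => ⟨h.1.symm, h.2.symm⟩
  closed := fun p hp h => ⟨h, by
    have : IsClosed {p : Circle × Circle | p.1 = 1 ∨ p.2 = 1} :=
      (isClosed_eq continuous_fst continuous_const).union
        (isClosed_eq continuous_snd continuous_const)
    exact this.closure_subset_iff.2 (fun q hq => hq.2) hp⟩
  unlinked := by
    rintro ⟨a, b⟩ ⟨-, h1⟩ ⟨c, d⟩ ⟨-, h2⟩ ⟨h3, h4⟩
    rcases h1 with rfl | rfl <;> rcases h2 with rfl | rfl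
    · exact not_pos _ _ ((pos_rot _ _ _).2 h3)
    · exact not_pos _ _ ((pos_rot _ _ _).1 h4)
    · exact not_pos _ _ ((pos_rot _ _ _).1 h3)
    · exact not_pos _ _ ((pos_rot _ _ _).2 h4)

theorem L_full : VeryFull L := by
  rintro z ⟨hz, hz'⟩
  exfalso
  apply hz'
  rw [mem_ball_zero_iff, ← sq_lt_one_iff₀ (norm_nonneg _), Complex.sq_norm,
    Complex.normSq_apply] at hz
  have h1 : z.re < 1 := by nlinarith [mul_self_nonneg z.im]
  have h2 : 1 - z.re ≠ 0 := by linarith
  set x := -z.im / (1 - z.re) with hx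
  have hx1 : (0 : ℝ) < x ^ 2 + 1 := by positivity
  have him : z.im = -x * (1 - z.re) := by rw [hx]; field_simp
  simp only [mem_iUnion]
  refine ⟨(1, cay x), ⟨fun h => ?_, Or.inl rfl⟩, 1 - (1 - z.re) * (x ^ 2 + 1) / 2,
    (1 - z.re) * (x ^ 2 + 1) / 2, ?_, by have := sub_pos.2 h1; positivity, by ring, ?_⟩
  · exact OnePoint.infty_ne_coe x (e0_bij.1 (a₁ := OnePoint.infty) (a₂ := (x : OnePoint ℝ)) h)
  · rw [him] at hz
    have : 0 < (1 - z.re) * (2 - (1 - z.re) * (x ^ 2 + 1)) := by nlinarith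
    have := (mul_pos_iff_of_pos_left (sub_pos.2 h1)).1 this
    linarith
  · apply Complex.ext
    · simp only [add_re, smul_re, cay_re, smul_eq_mul, Circle.coe_one, one_re]
      field_simp; ring
    · simp only [add_im, smul_im, cay_im, smul_eq_mul, Circle.coe_one, one_im]
      rw [him]; field_simp; ring

def tf (x : ℝ) : ℝ := 3 * x / 2 + Real.sin (Real.pi * x) / 4

theorem tf_mono : StrictMono tf := by
  intro x y h
  have h1 := Real.abs_sin_sub_sin_le (Real.pi * y) (Real.pi * x)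
  have h2 := Real.pi_lt_four
  have h3 := Real.pi_pos
  rw [← mul_sub, abs_of_pos (mul_pos h3 (sub_pos.2 h))] at h1
  have := (abs_le.1 h1).1
  unfold tf
  nlinarith

theorem tf_surj : Function.Surjective tf := by
  refine Continuous.surjective (by unfold tf; fun_prop) ?_ ?_
  · refine tendsto_atTop_mono (f := fun x : ℝ => x * (3 / 2) + -1) (fun x => ?_)
      (tendsto_atTop_add_const_right _ _ (tendsto_id.atTop_mul_const (by norm_num)))
    have := Real.neg_one_le_sin (Real.pi * x)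
    unfold tf; linarith
  · refine tendsto_atBot_mono (f := fun x : ℝ => x * (3 / 2) + 1) (fun x => ?_)
      (tendsto_atBot_add_const_right _ _ (tendsto_id.atBot_mul_const (by norm_num)))
    have := Real.sin_le_one (Real.pi * x)
    unfold tf; linarith

def t : ℝ ≃o ℝ := tf_mono.orderIsoOfSurjective tf tf_surj
def a : ℝ ≃o ℝ := OrderIso.addRight 1

theorem rel : t * a ^ 2 = a ^ 3 * t := by
  ext x
  change tf (x + 1 + 1) = tf x + 1 + 1 + 1
  unfold tf
  rw [show Real.pi * (x + 1 + 1) = Real.pi * x + 2 * Real.pi by ring, Real.sin_add_two_pi]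
  ring

theorem noncomm : t * a * t⁻¹ * a ≠ a * (t * a * t⁻¹) := by
  intro h
  obtain ⟨u, hu⟩ := tf_surj 1
  have h0 : t 0 = 0 := by change tf 0 = 0; simp [tf]
  have h0' : t⁻¹ 0 = 0 := by
    conv_lhs => rw [← h0]
    simp
  have hu' : t⁻¹ (0 + 1) = u := by
    have : t u = 0 + 1 := by rw [zero_add]; exact hu
    rw [← this]; simp
  have h1 : tf (t⁻¹ (0 + 1) + 1) = tf (t⁻¹ 0 + 1) + 1 := DFunLike.congr_fun h 0
  rw [hu', h0'] at h1
  unfold tf at h1 hu
  rw [mul_add Real.pi, mul_one, Real.sin_add_pi] at h1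
  simp only [zero_add, mul_one, Real.sin_pi] at h1
  have h2 : Real.sin (Real.pi * u) = 0 := by linarith
  have h3 : u = 2 / 3 := by linarith
  have := Real.pi_pos
  rw [h3] at h2
  exact (Real.sin_pos_of_pos_of_lt_pi (by linarith) (by linarith)).ne' h2

theorem fin_comm {H : Type} [Group H] [Finite H] (x y : H) (h : y * x ^ 2 = x ^ 3 * y) :
    y * x * y⁻¹ * x = x * (y * x * y⁻¹) := by
  have h1 : orderOf (x ^ 2) = orderOf (x ^ 3) := SemiconjBy.orderOf_eq y h
  have hn := orderOf_pos x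
  rw [orderOf_pow, orderOf_pow] at h1
  have h2 : Odd (orderOf x) := by
    rw [← Nat.not_even_iff_odd]
    rintro ⟨k, hk⟩
    rw [Nat.gcd_eq_right (n := 2) ⟨k, by omega⟩] at h1
    rcases (Nat.dvd_prime Nat.prime_three).1 (Nat.gcd_dvd_right (orderOf x) 3) with h3 | h3 <;>
      rw [h3] at h1 <;> omega
  obtain ⟨k, hk⟩ := h2
  have h3 : x = (x ^ 2) ^ (k + 1) := by
    rw [← pow_mul, show 2 * (k + 1) = orderOf x + 1 by omega, pow_succ, pow_orderOf_eq_one, one_mul]
  have h4 : y * x * y⁻¹ = (x ^ 3) ^ (k + 1) := by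
    have := (SemiconjBy.pow_right h (k + 1)).eq
    rw [← h3] at this
    rw [this, mul_inv_cancel_right]
  rw [h4, ← pow_mul, ← pow_succ, ← pow_succ']

theorem result :
    ∃ G : Subgroup (Circle ≃ₜ Circle), G.FG ∧
      (∀ g ∈ G, ∀ a b c, Pos a b c → Pos (g a) (g b) (g c)) ∧
      ∃ L : Set (Circle × Circle), IsLamination L ∧ VeryFull L ∧
        (∀ g ∈ G, (fun p : Circle × Circle => (g p.1, g p.2)) '' L = L) ∧
        ∃ g : G, g ≠ 1 ∧ ∀ (H : Type) [Group H] [Finite H] (φ : G →* H), φ g = 1 := by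
  classical
  have hG : ∀ g ∈ Subgroup.closure {rho a, rho t}, ∃ f, g = act f := fun g hg => by
    have : Subgroup.closure {rho a, rho t} ≤ rho.range := by
      rw [Subgroup.closure_le]
      rintro _ (rfl | rfl) <;> exact ⟨_, rfl⟩
    obtain ⟨f, rfl⟩ := this hg
    exact ⟨f, rfl⟩
  let A : Subgroup.closure {rho a, rho t} := ⟨rho a, Subgroup.subset_closure (by simp)⟩
  let T : Subgroup.closure {rho a, rho t} := ⟨rho t, Subgroup.subset_closure (by simp)⟩
  refine ⟨Subgroup.closure {rho a, rho t}, ⟨{rho a, rho t}, by simp⟩, fun g hg => ?_, L, L_lam,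
    L_full, fun g hg => ?_, T * A * T⁻¹ * A * (A * (T * A * T⁻¹))⁻¹, fun h => ?_,
    fun H _ _ φ => ?_⟩
  · obtain ⟨f, rfl⟩ := hG g hg
    exact act_pos f
  · obtain ⟨f, rfl⟩ := hG g hg
    have h1 : ∀ b, act f b = 1 ↔ b = 1 := fun b => by
      conv_lhs => rw [← act_one f]
      exact (act f).injective.eq_iff
    ext ⟨b, c⟩
    constructor
    · rintro ⟨⟨b', c'⟩, ⟨h2, h3⟩, h4⟩
      rw [← h4]
      exact ⟨(act f).injective.ne h2, by simpa [h1] using h3⟩
    · rintro ⟨h2, h3⟩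
      obtain ⟨b', rfl⟩ := (act f).surjective b
      obtain ⟨c', rfl⟩ := (act f).surjective c
      exact ⟨(b', c'), ⟨fun h => h2 (congrArg (act f) h), by simpa [h1] using h3⟩, rfl⟩
  · apply noncomm
    have h1 : rho (t * a * t⁻¹ * a) = rho (a * (t * a * t⁻¹)) := by
      simpa [A, T] using congrArg Subtype.val (mul_inv_eq_one.1 h)
    ext x
    apply cay_inj
    rw [← act_cay, ← act_cay]
    exact DFunLike.congr_fun h1 _
  · have h1 : T * A ^ 2 = A ^ 3 * T := Subtype.ext (by simpa [A, T] using congrArg rho rel)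
    have h2 := fin_comm (φ A) (φ T) (by simpa using congrArg φ h1)
    simp only [map_mul, map_inv]
    rw [h2, mul_inv_cancel]

end
end Pool.Agent.Results.MP_939d63_gt.Counterexample
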